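import Pool.Agent.W990.EB.Defs

set_option autoImplicit false
open Finset

namespace Pool.Agent.W990.EB

/-- the main algebraic identity, derivative form -/
theorem der (a b c d t : ℝ) :
    HasDerivAt (fun t : ℝ => t * (al (t * a) (t * b) (t * c) (t * d) *
        Real.exp (-(t * (a + b + c + d)))))
      ((1 / 2 - 8 / 315 * (sym pe (t * a) (t * b) (t * c) (t * d) +
          sym po (t * a) (t * b) (t * c) (t * d)) -
          (t * a + t * d - t * b - t * c) * be (t * a) (t * b) (t * c) (t * d)) *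
        Real.exp (-(t * (a + b + c + d)))) t := by
  have h1 : HasDerivAt (fun t : ℝ => Real.exp (-(t * (a + b + c + d))))
      (-(a + b + c + d) * Real.exp (-(t * (a + b + c + d)))) t := by
    have h2 : HasDerivAt (fun t : ℝ => -(t * (a + b + c + d))) (-(a + b + c + d)) t := by
      have h := ((hasDerivAt_id t).mul_const (a + b + c + d)).neg
      rw [one_mul] at h
      exact h
    have h3 := h2.exp
    rw [mul_comm]
    exact h3
  -- the polynomial part
  have h4 : ∀ n p q : ℝ, HasDerivAt (fun t : ℝ => t * al0 (t * n) (t * p) (t * q))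
      ((73 + 2*21*(t*n) + 3*1*(t*q)^2 + 3*1*(t*p)^2 + 3*38*(t*n)^2 - 4*9*(t*n)*(t*q)^2
        - 4*9*(t*n)*(t*p)^2 + 4*22*(t*n)^3 + 5*4*(t*p)^2*(t*q)^2 - 5*4*(t*n)^4
        + 6*4*(t*n)*(t*p)^2*(t*q)^2 - 6*4*(t*n)^3*(t*q)^2 - 6*4*(t*n)^3*(t*p)^2
        + 6*4*(t*n)^5) / 315) t := by
    intro n p q
    have e : (fun t : ℝ => t * al0 (t * n) (t * p) (t * q)) = fun t : ℝ =>
        (73 / 315) * t + (21 * n / 315) * t ^ 2 + ((q^2 + p^2 + 38 * n^2) / 315) * t ^ 3 +
        ((- 9*n*q^2 - 9*n*p^2 + 22*n^3) / 315) * t ^ 4 + ((4*p^2*q^2 - 4*n^4) / 315) * t ^ 5 +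
        ((4*n*p^2*q^2 - 4*n^3*q^2 - 4*n^3*p^2 + 4*n^5) / 315) * t ^ 6 := by
      funext t
      unfold al0
      ring
    rw [e]
    have k1 : HasDerivAt (fun t : ℝ => (73 / 315 : ℝ) * t) ((73 / 315 : ℝ) * 1) t :=
      (hasDerivAt_id t).const_mul _
    have k : ∀ (c : ℝ) (m : ℕ), HasDerivAt (fun t : ℝ => c * t ^ m) (c * (m * t ^ (m - 1))) t :=
      fun c m => (hasDerivAt_pow m t).const_mul c
    have k2 := (((((k1.add (k (21 * n / 315) 2)).add (k ((q^2 + p^2 + 38 * n^2) / 315) 3)).add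
      (k ((- 9*n*q^2 - 9*n*p^2 + 22*n^3) / 315) 4)).add (k ((4*p^2*q^2 - 4*n^4) / 315) 5)).add
      (k ((4*n*p^2*q^2 - 4*n^3*q^2 - 4*n^3*p^2 + 4*n^5) / 315) 6))
    refine k2.congr_deriv ?_
    norm_num
    ring
  have h5 := (h4 (a + d) (a - d) (b - c)).mul h1
  have e1 : (fun t : ℝ => t * (al (t * a) (t * b) (t * c) (t * d) *
        Real.exp (-(t * (a + b + c + d))))) =
      fun t : ℝ => t * al0 (t * (a + d)) (t * (a - d)) (t * (b - c)) *
        Real.exp (-(t * (a + b + c + d))) := by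
    funext s
    unfold al
    rw [show s * (a + d) = s * a + s * d by ring, show s * (a - d) = s * a - s * d by ring,
      show s * (b - c) = s * b - s * c by ring]
    ring
  rw [e1]
  refine h5.congr_deriv ?_
  unfold sym pe po qe qo be be0 al0
  ring

end Pool.Agent.W990.EB
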