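import Pool.Agent.W990.EB.Main
import Pool.Agent.W381.EB.V0
import Pool.Agent.W348.EB.V1C
import Pool.Agent.W804.EB.V2
import Pool.Agent.W177.EB.V3
import Pool.Agent.W74.EB.VE
import Pool.Agent.W753.EB.JS
import Pool.Agent.W103.EB.Jd
import Pool.Agent.W853.EB.Up
import Pool.Agent.W922.EB.RS
import Pool.Agent.W692.EB.Q4
import Pool.Agent.W63.EB.BD
import Pool.Agent.W462.EB.PGr
import Pool.Agent.W125.EB.Swap
import Pool.Agent.W290.EB.Id
import Pool.Agent.W509.EB.Low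
import Pool.Agent.W311.EB.G
import Pool.Agent.W999.EB.Geo
import Pool.Agent.W977.EB.Quad
import Pool.Agent.W196.EB.Exc
import Pool.Agent.W436.EB.F
import Pool.Agent.W605.EB.TR

set_option autoImplicit false

namespace Pool.Agent.W990.EB

theorem s_v1 : S_V1 := Pool.Agent.W348.EB.v1 Pool.Agent.W381.EB.v0
theorem s_up : S_UP :=
  Pool.Agent.W853.EB.up Pool.Agent.W753.EB.js s_v1 Pool.Agent.W804.EB.v2
    (Pool.Agent.W348.EB.vc s_v1) (Pool.Agent.W74.EB.ve Pool.Agent.W381.EB.v0)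
theorem s_id : S_ID :=
  Pool.Agent.W290.EB.id Pool.Agent.W125.EB.swap (Pool.Agent.W63.EB.BD.bd Pool.Agent.W692.EB.q4)
    Pool.Agent.W462.EB.pg
theorem s_low : S_LOW :=
  Pool.Agent.W509.EB.low Pool.Agent.W103.EB.jd (Pool.Agent.W177.EB.v3 s_v1) Pool.Agent.W692.EB.q4

theorem s_main : S_MAIN :=
  main s_up s_id s_low (Pool.Agent.W103.EB.odd s_v1) (Pool.Agent.W311.EB.g Pool.Agent.W922.EB.rs)
    Pool.Agent.W922.EB.rs (Pool.Agent.W977.EB.Quad.quad W999.EB.geo) Pool.Agent.W196.EB.exc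
    W999.EB.geo Pool.Agent.W436.EB.fq Pool.Agent.W605.EB.tr

theorem s_oddrep : S_ODDREP := Pool.Agent.W605.EB.oddrep

end Pool.Agent.W990.EB
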