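import Pool.Agent.W990.EB.All

set_option autoImplicit false
open Finset Filter

namespace Pool.Agent.W990.EB

theorem gap_pos {l u b : ℝ} (hl : 0 ≤ l) (hlu : l ≤ u) (hb : 0 ≤ b) (hb2 : b ≤ l + u)
    (h : (Real.sqrt u - Real.sqrt l) ^ 2 < b) : 0 < l * u - (l + u - b) ^ 2 / 4 := by
  have hu : 0 ≤ u := hl.trans hlu
  have h1 : Real.sqrt u ^ 2 = u := Real.sq_sqrt hu
  have h2 : Real.sqrt l ^ 2 = l := Real.sq_sqrt hl
  have h3 : 0 ≤ Real.sqrt u := Real.sqrt_nonneg _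
  have h4 : 0 ≤ Real.sqrt l := Real.sqrt_nonneg _
  obtain ⟨x, hx⟩ : ∃ x, x = Real.sqrt u := ⟨_, rfl⟩
  obtain ⟨y, hy⟩ : ∃ y, y = Real.sqrt l := ⟨_, rfl⟩
  rw [← hx, ← hy] at h
  rw [← hx] at h1 h3
  rw [← hy] at h2 h4
  rw [← h1, ← h2] at hb2 ⊢
  have h5 : y ^ 2 + x ^ 2 - b < 2 * (x * y) := by nlinarith
  have h6 : 0 ≤ y ^ 2 + x ^ 2 - b := by linarith
  have h7 : (y ^ 2 + x ^ 2 - b) ^ 2 < (2 * (x * y)) ^ 2 :=
    pow_lt_pow_left₀ h5 h6 (by norm_num)
  nlinarith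

/-- bounded error terms -/
theorem ev_le {e : ℕ → ℝ} {B δ1 δ2 : ℝ} {n0 : ℕ} {P Q : ℕ → Prop} [DecidablePred P]
    [DecidablePred Q] {d : ℝ} (hB : 0 ≤ B) (hd1 : 0 < δ1) {c : ℝ} (hc : 0 ≤ c)
    (he : ∀ n, e n ≤ (if n < n0 then B else 0) + (if P n then B else 0) + (if Q n then c else 0))
    (hP : ∀ δ : ℝ, 0 < δ → ∀ᶠ N : ℕ in atTop, (((range N).filter P).card : ℝ) ≤ δ * N)
    (hQ : ∀ᶠ N : ℕ in atTop, (((range N).filter Q).card : ℝ) ≤ d * N)
    (h : δ2 = δ1 + c * d) :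
    ∀ᶠ N : ℕ in atTop, ∑ n ∈ range N, e n ≤ δ2 * N := by
  have h1 := hP (δ1 / (2 * (B + 1))) (by positivity)
  obtain ⟨N1, hN1⟩ := exists_nat_ge (2 * (n0 * B) / δ1)
  filter_upwards [h1, hQ, eventually_ge_atTop N1] with N h2 h3 h4
  have h5 : ∑ n ∈ range N, e n ≤ ∑ n ∈ range N, ((if n < n0 then B else 0) +
      (if P n then B else 0) + (if Q n then c else 0)) := sum_le_sum fun n _ => he n
  rw [sum_add_distrib, sum_add_distrib] at h5
  have h6 : ∑ n ∈ range N, (if n < n0 then B else 0) ≤ n0 * B := by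
    rw [← sum_filter, sum_const, nsmul_eq_mul]
    apply mul_le_mul_of_nonneg_right _ hB
    have : (range N).filter (fun n => n < n0) ⊆ range n0 := by
      intro n hn
      rw [mem_filter] at hn
      exact mem_range.mpr hn.2
    have h7 := card_le_card this
    rw [card_range] at h7
    exact_mod_cast h7
  have h7 : ∑ n ∈ range N, (if P n then B else 0) = ((range N).filter P).card * B := by
    rw [← sum_filter, sum_const, nsmul_eq_mul]
  have h8 : ∑ n ∈ range N, (if Q n then c else 0) = ((range N).filter Q).card * c := by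
    rw [← sum_filter, sum_const, nsmul_eq_mul]
  rw [h7, h8] at h5
  have h9 : (((range N).filter P).card : ℝ) * B ≤ δ1 / (2 * (B + 1)) * N * B :=
    mul_le_mul_of_nonneg_right h2 hB
  have h10 : δ1 / (2 * (B + 1)) * N * B ≤ δ1 / 2 * N := by
    have : δ1 / (2 * (B + 1)) * N * B = δ1 / 2 * N * (B / (B + 1)) := by
      field_simp
    rw [this]
    have h11 : B / (B + 1) ≤ 1 := by
      rw [div_le_one (by linarith)]
      linarith
    have h12 : 0 ≤ δ1 / 2 * N := by positivity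
    nlinarith
  have h11 : (((range N).filter Q).card : ℝ) * c ≤ d * N * c := mul_le_mul_of_nonneg_right h3 hc
  have h12 : n0 * B ≤ δ1 / 2 * N := by
    have h13 : 2 * (n0 * B) / δ1 ≤ N := hN1.trans (by exact_mod_cast h4)
    rw [div_le_iff₀ hd1] at h13
    linarith
  rw [h]
  nlinarith

/-- the general parity form -/
theorem unify {A : Set ℕ} {R l K n0 : ℕ} (hR : ∀ n, rep A n ≤ R) (hl : Even l) (hK : Even K)
    (h2 : 2 ≤ l) (hlK : l ≤ K) {c : ℝ} (hc : 0 ≤ c)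
    {Q : ℕ → Prop} [DecidablePred Q] (hup : ∀ n ≥ n0, ¬ Q n → rep A n ≤ K + 1)
    (hlow : ∀ n ≥ n0, ¬ Q n → l ≤ rep A n + 1)
    (hQc : ∀ n, n0 ≤ n → Q n → Even (rep A n) → ((rep A n : ℝ) - l) * ((rep A n : ℝ) - K) ≤ c)
    {d : ℝ} (hd0 : 0 ≤ d)
    (hz : ∀ᶠ N : ℕ in atTop, (((range N).filter Q).card : ℝ) ≤ d * N)
    (hη : c * d < (l : ℝ) * K - (l + K - 1369 / 1260) ^ 2 / 4) : False := by
  classical
  obtain ⟨η, hηd⟩ : ∃ η : ℝ, η = (l : ℝ) * K - (l + K - 1369 / 1260) ^ 2 / 4 := ⟨_, rfl⟩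
  rw [← hηd] at hη
  have hl2 : (2:ℝ) ≤ l := by exact_mod_cast h2
  have hlK' : (l:ℝ) ≤ K := by exact_mod_cast hlK
  have hK0 : (0:ℝ) ≤ K := by linarith
  have hR0 : (0:ℝ) ≤ R := Nat.cast_nonneg _
  refine s_main A R l K ((η - c * d) / 2 + c * d) hR (by linarith) hlK' (by linarith)
    (by have := mul_nonneg hc hd0; linarith) (by rw [← hηd]; linarith) ?_
  refine ev_le (B := (R + K) ^ 2) (δ1 := (η - c * d) / 2) (n0 := n0) (c := c)
    (P := fun n => ¬ Even (rep A n)) (Q := Q) (by positivity)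
    (by linarith) hc ?_ (s_oddrep A R hR) hz rfl
  intro n
  have hB : ((rep A n : ℝ) - l) * ((rep A n : ℝ) - K) ≤ (R + K) ^ 2 :=
    prod_bd (Nat.cast_nonneg _) (by exact_mod_cast hR n) (by linarith) hlK'
  have hB0 : (0:ℝ) ≤ (R + K) ^ 2 := by positivity
  apply max_le
  · split_ifs <;> linarith
  by_cases hn : n < n0
  · rw [if_pos hn]
    split_ifs <;> linarith
  rw [if_neg hn]
  by_cases ho : ¬ Even (rep A n)
  · rw [if_pos ho]
    split_ifs <;> linarith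
  rw [if_neg ho]
  rw [not_not] at ho
  by_cases hq : Q n
  · rw [if_pos hq]
    have := hQc n (by omega) hq ho
    linarith
  · rw [if_neg hq]
    have h3 := hup n (by omega) hq
    have h4 := hlow n (by omega) hq
    have h5 : l ≤ rep A n := by
      obtain ⟨a, ha⟩ := hl
      obtain ⟨b, hb⟩ := ho
      omega
    have h6 : rep A n ≤ K := by
      obtain ⟨a, ha⟩ := hK
      obtain ⟨b, hb⟩ := ho
      omega
    have h7 : (l:ℝ) ≤ rep A n := by exact_mod_cast h5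
    have h8 : (rep A n : ℝ) ≤ K := by exact_mod_cast h6
    nlinarith

end Pool.Agent.W990.EB
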