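import Mathlib

/-!
# Project EB: bounded representation functions (definitions)
-/

set_option autoImplicit false
open Finset

namespace Pool.Agent.W990.EB

/-- number of ordered pairs in `S × S` with sum `n` -/
def r (S : Finset ℕ) (n : ℕ) : ℕ := ((S ×ˢ S).filter (fun x => x.1 + x.2 = n)).card

/-- the weight `[m = 0] - K⁻² #{(i, j) : i, j < K, i - j = m}` -/
noncomputable def w (K : ℕ) (m : ℤ) : ℝ :=
  (if m = 0 then 1 else 0) -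
    1 / (K : ℝ) ^ 2 * ∑ i ∈ range K, ∑ j ∈ range K, (if m = (i : ℤ) - (j : ℤ) then (1 : ℝ) else 0)

/-- the basic sum over quadruples -/
noncomputable def J (K : ℕ) (S : Finset ℕ) (P : ℝ → ℝ → ℝ → ℝ → ℝ) (t : ℝ) : ℝ :=
  ∑ a ∈ S, ∑ b ∈ S, ∑ c ∈ S, ∑ d ∈ S, w K ((a : ℤ) + d - b - c) *
    (P (t * a) (t * b) (t * c) (t * d) * Real.exp (-(t * (a + b + c + d))))

/-- the quadratic form of the weight on an indexed family -/
noncomputable def W {ι : Type} (K : ℕ) (I : Finset ι) (m : ι → ℤ) (U : ι → ℝ) : ℝ :=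
  ∑ i ∈ I, ∑ j ∈ I, w K (m i - m j) * (U i * U j)

/-- the energy of an indexed family -/
noncomputable def En {ι : Type} (I : Finset ι) (m : ι → ℤ) (U : ι → ℝ) : ℝ :=
  ∑ i ∈ I, ∑ j ∈ I, if m i = m j then U i * U j else 0

/-- fibre sums of an indexed family -/
noncomputable def fib {ι : Type} (I : Finset ι) (m : ι → ℤ) (U : ι → ℝ) (z : ℤ) : ℝ :=
  ∑ i ∈ I, if m i = z then U i else 0

/-- the even polynomial -/
noncomputable def qe (D N : ℝ) : ℝ := 13 / 4 + 2 * N - (N ^ 2 - D ^ 2) - N ^ 2 + N * (N ^ 2 - D ^ 2)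

/-- the odd polynomial -/
noncomputable def qo (D N : ℝ) : ℝ := D * (3 - N + (N ^ 2 - D ^ 2))

noncomputable def pe (a b c d : ℝ) : ℝ := qe (a - b) (a + b) * qe (c - d) (c + d)
noncomputable def po (a b c d : ℝ) : ℝ := qo (a - b) (a + b) * qo (c - d) (c + d)

/-- symmetrisation -/
noncomputable def sym (P : ℝ → ℝ → ℝ → ℝ → ℝ) (a b c d : ℝ) : ℝ :=
  (P a b c d + P d b c a + P a c b d + P d c b a) / 4

noncomputable def al0 (n p q : ℝ) : ℝ :=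
  (73 + 21*n + 1*q^2 + 1*p^2 + 38*n^2 - 9*n*q^2 - 9*n*p^2 + 22*n^3 + 4*p^2*q^2 - 4*n^4
    + 4*n*p^2*q^2 - 4*n^3*q^2 - 4*n^3*p^2 + 4*n^5) / 315

noncomputable def be0 (n k p q : ℝ) : ℝ :=
  (- 21 - 23*k - 70*n - 3*q^2 + 39*p^2 + 2*k^2 - 6*n*k - 52*n^2 - 16*k*p^2 + 7*n*q^2 - 9*n*p^2
    + 2*n*k^2 + 62*n^2*k + 42*n^3 - 12*p^2*q^2 + 8*k^2*p^2 + 24*n*k*p^2 + 16*n^2*q^2
    + 24*n^2*p^2 - 16*n^2*k^2 - 32*n^3*k - 28*n^4 + 4*n*p^2*q^2 - 8*n*k^2*p^2 - 8*n^2*k*p^2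
    - 4*n^3*q^2 - 4*n^3*p^2 + 8*n^3*k^2 + 8*n^4*k + 4*n^5) / 315

noncomputable def al (a b c d : ℝ) : ℝ := al0 (a + d) (a - d) (b - c)
noncomputable def be (a b c d : ℝ) : ℝ := be0 (a + d) (b + c) (a - d) (b - c)

/-- `∑ e^{-s a}` -/
noncomputable def f (S : Finset ℕ) (s : ℝ) : ℝ := ∑ a ∈ S, Real.exp (-(s * a))

/-- value at difference zero -/
noncomputable def G0 (S : Finset ℕ) (t : ℝ) : ℝ :=
  ∑ a ∈ S, qe 0 (2 * t * a) * Real.exp (-(2 * t * a))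

/-- polynomial growth (in a form which is enough) -/
def PG (P : ℝ → ℝ → ℝ → ℝ → ℝ) : Prop :=
  ∃ C : ℝ, 0 ≤ C ∧ ∀ a b c d : ℝ, 0 ≤ a → 0 ≤ b → 0 ≤ c → 0 ≤ d →
    |P a b c d| ≤ C * Real.exp ((a + b + c + d) / 2)

end Pool.Agent.W990.EB
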