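import Pool.Agent.W990.EB.MainA

set_option autoImplicit false
open Finset Filter MeasureTheory

namespace Pool.Agent.W990.EB

/-- integration of the pointwise bound -/
theorem integ {K : ℕ} {S : Finset ℕ} {κ C2 Cu Ci Cg m ε : ℝ} (hC2 : 0 ≤ C2)
    (hCu : 0 ≤ Cu) (hm : 0 ≤ m) (hε : 0 < ε) (hε1 : ε ≤ 1)
    (hidS : |∫ t in ε..1, (1 / 2 * J K S (fun _ _ _ _ => 1) t -
      8 / 315 * (J K S pe t + J K S po t))| ≤ Ci)
    (hgS : |∫ t in ε..1, (G0 S t - 37 / 8 * f S (2 * t)) / Real.sqrt t| ≤ Cg)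
    (hpt : ∀ t ∈ Set.Icc ε 1, 1 / 2 * J K S (fun _ _ _ _ => 1) t -
        8 / 315 * (J K S pe t + J K S po t) ≤
          -κ * t⁻¹ + C2 / 2 + Cu / 2 * (1 / Real.sqrt t) -
            m * ((G0 S t - 37 / 8 * f S (2 * t)) / Real.sqrt t)) :
    κ * Real.log (1 / ε) ≤ Ci + C2 / 2 + Cu + m * Cg := by
  have hci : ContinuousOn (fun t : ℝ => (G0 S t - 37 / 8 * f S (2 * t)) / Real.sqrt t)
      (Set.uIcc ε 1) := by
    rw [Set.uIcc_of_le hε1]
    intro t ht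
    have ht0 : 0 < t := lt_of_lt_of_le hε ht.1
    have : Real.sqrt t ≠ 0 := (Real.sqrt_pos.mpr ht0).ne'
    refine (ContinuousAt.div ?_ Real.continuous_sqrt.continuousAt this).continuousWithinAt
    exact ((cont_G0 S).sub (continuous_const.mul (cont_f S))).continuousAt
  have hinv : ContinuousOn (fun t : ℝ => t⁻¹) (Set.uIcc ε 1) := by
    rw [Set.uIcc_of_le hε1]
    intro t ht
    exact (continuousAt_inv₀ (lt_of_lt_of_le hε ht.1).ne').continuousWithinAt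
  have hsq : ContinuousOn (fun t : ℝ => 1 / Real.sqrt t) (Set.uIcc ε 1) := by
    rw [Set.uIcc_of_le hε1]
    intro t ht
    have ht0 : 0 < t := lt_of_lt_of_le hε ht.1
    have : Real.sqrt t ≠ 0 := (Real.sqrt_pos.mpr ht0).ne'
    exact (ContinuousAt.div continuousAt_const Real.continuous_sqrt.continuousAt
      this).continuousWithinAt
  have hI1 : IntervalIntegrable (fun t => 1 / 2 * J K S (fun _ _ _ _ => 1) t -
      8 / 315 * (J K S pe t + J K S po t)) volume ε 1 := by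
    apply Continuous.intervalIntegrable
    exact (continuous_const.mul (cont_one K S)).sub
      (continuous_const.mul ((cont_pe K S).add (cont_po K S)))
  have i1 : IntervalIntegrable (fun t : ℝ => -κ * t⁻¹) volume ε 1 :=
    (hinv.const_smul (-κ)).intervalIntegrable
  have i2 : IntervalIntegrable (fun _ : ℝ => C2 / 2) volume ε 1 :=
    intervalIntegrable_const
  have i3 : IntervalIntegrable (fun t : ℝ => Cu / 2 * (1 / Real.sqrt t)) volume ε 1 :=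
    (hsq.const_smul (Cu / 2)).intervalIntegrable
  have i4 : IntervalIntegrable
      (fun t : ℝ => m * ((G0 S t - 37 / 8 * f S (2 * t)) / Real.sqrt t)) volume ε 1 :=
    (hci.const_smul m).intervalIntegrable
  have hle := intervalIntegral.integral_mono_on hε1 hI1 (((i1.add i2).add i3).sub i4) hpt
  rw [intervalIntegral.integral_sub ((i1.add i2).add i3) i4,
    intervalIntegral.integral_add (i1.add i2) i3, intervalIntegral.integral_add i1 i2,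
    intervalIntegral.integral_const_mul, intervalIntegral.integral_const_mul,
    intervalIntegral.integral_const_mul, intervalIntegral.integral_const,
    integral_inv_of_pos hε one_pos] at hle
  have hs := int_inv_sqrt hε hε1
  have h1 := (abs_le.mp hidS).1
  have h2 := (abs_le.mp hgS).1
  have h3 : Cu / 2 * ∫ t in ε..1, 1 / Real.sqrt t ≤ Cu / 2 * 2 :=
    mul_le_mul_of_nonneg_left hs (by linarith)
  have h4 : m * (-Cg) ≤ m * ∫ t in ε..1, ((G0 S t - 37 / 8 * f S (2 * t)) / Real.sqrt t) :=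
    mul_le_mul_of_nonneg_left h2 hm
  have h5 : (1 - ε) • (C2 / 2) ≤ C2 / 2 := by
    rw [smul_eq_mul]
    nlinarith
  linarith

/-- the pointwise bound -/
theorem ptw {A : Set ℕ} {K R N0 : ℕ} {S : Finset ℕ} {l u δ η lam μ b Cl Cu Cq C1 t : ℝ}
    (hl : 0 ≤ l) (hlu : l ≤ u)
    (hb : b = 1369 / 1260)
    (hs2 : Real.sqrt 2 ^ 2 = 2) (hs2p : 0 < Real.sqrt 2)
    (hμ : μ = 37 / 8 * (lam / Real.sqrt 2))
    (hK : 8 / 315 * (Cl / Real.sqrt K) ≤ (η - δ) / 8)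
    (hS2 : ∀ n, n ≤ N0 → r S n = rep A n)
    (hSR : ∀ n, r S n ≤ R)
    (ht0 : 0 < t) (ht1 : t ≤ 1)
    (hrs : (f S (2 * t)) ^ 2 ≤ R * (1 / (2 * t) + 1))
    (e1 : ∀ c : ℝ, 0 ≤ c → c ≤ 3 * R → J K S (fun _ _ _ _ => 1) t ≤
      ∑ n ∈ range (2 * N0 + 1), ((r S n : ℝ) - c) ^ 2 * Real.exp (-(2 * t * n)) +
        Cu * (1 + 1 / Real.sqrt t))
    (e2 : ∀ c : ℝ, 0 ≤ c → c ≤ 3 * R →
        ∑ n ∈ range (2 * N0 + 1), ((r S n : ℝ) - c) ^ 2 * Real.exp (-(2 * t * n)) ≤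
      (l + u - 2 * c) * (f S (2 * t)) ^ 2 + (c ^ 2 - l * u) / (2 * t) +
        ∑ n ∈ range (2 * N0 + 1), max 0 (((r S n : ℝ) - l) * ((r S n : ℝ) - u)) *
          Real.exp (-(2 * t * n)) + Cq)
    (hexc1 : ∑ n ∈ range (N0 + 1), max 0 (((rep A n : ℝ) - l) * ((rep A n : ℝ) - u)) *
      Real.exp (-(2 * t * n)) ≤ δ / (2 * t) + C1)
    (hgeo : ∑ n ∈ Finset.Ico (N0 + 1) (2 * N0 + 1), Real.exp (-(2 * t * n)) ≤ 1)
    (e4 : (G0 S t) ^ 2 - Cl / (Real.sqrt K * t) ≤ J K S pe t)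
    (e5 : 0 ≤ J K S po t)
    (e6 : ∀ φ : ℝ, 0 ≤ φ → η ≤ φ ^ 4 - (l + u) * φ ^ 2 + l * u +
            b * (2 * lam * φ - lam ^ 2)) :
    1 / 2 * J K S (fun _ _ _ _ => 1) t - 8 / 315 * (J K S pe t + J K S po t) ≤
          -((η - δ) / 8) * t⁻¹ + (C1 + (R + u) ^ 2 + Cq + Cu) / 2 +
            Cu / 2 * (1 / Real.sqrt t) -
              16 * μ / 315 * ((G0 S t - 37 / 8 * f S (2 * t)) / Real.sqrt t) := by
  have hst : 0 < Real.sqrt t := Real.sqrt_pos.mpr ht0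
  have hst2 : Real.sqrt t ^ 2 = t := Real.sq_sqrt ht0.le
  obtain ⟨F, hF⟩ : ∃ F : ℝ, F = f S (2 * t) := ⟨_, rfl⟩
  have hF0 : 0 ≤ F := by rw [hF]; exact f_nonneg _ _
  obtain ⟨φ, hφ⟩ : ∃ φ : ℝ, φ = Real.sqrt 2 * Real.sqrt t * F := ⟨_, rfl⟩
  have hφ0 : 0 ≤ φ := by rw [hφ]; positivity
  obtain ⟨c, hc⟩ : ∃ c : ℝ, c = φ ^ 2 := ⟨_, rfl⟩
  have hc' : c = 2 * t * F ^ 2 := by
    rw [hc, hφ, mul_pow, mul_pow, hs2, hst2]
  have hc0 : 0 ≤ c := by rw [hc]; positivity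
  have hR0 : (0:ℝ) ≤ R := Nat.cast_nonneg _
  have hc3 : c ≤ 3 * R := by
    rw [hc', hF]
    have h2 : 2 * t * (f S (2 * t)) ^ 2 ≤ 2 * t * (R * (1 / (2 * t) + 1)) :=
      mul_le_mul_of_nonneg_left hrs (by linarith)
    have h3 : 2 * t * (R * (1 / (2 * t) + 1)) = R * (1 + 2 * t) := by
      field_simp
    rw [h3] at h2
    nlinarith
  have e1' := e1 c hc0 hc3
  have e2' := e2 c hc0 hc3
  have e3 : ∑ n ∈ range (2 * N0 + 1), max 0 (((r S n : ℝ) - l) * ((r S n : ℝ) - u)) *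
      Real.exp (-(2 * t * n)) ≤ (δ / (2 * t) + C1) + (R + u) ^ 2 := by
    apply split_sum
    · refine le_trans (le_of_eq ?_) hexc1
      apply sum_congr rfl
      intro n hn
      rw [mem_range] at hn
      rw [hS2 n (by omega)]
    · have h4 : ∀ n ∈ Finset.Ico (N0 + 1) (2 * N0 + 1),
          max 0 (((r S n : ℝ) - l) * ((r S n : ℝ) - u)) * Real.exp (-(2 * t * n)) ≤
            (R + u) ^ 2 * Real.exp (-(2 * t * n)) := by
        intro n _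
        apply mul_le_mul_of_nonneg_right _ (Real.exp_pos _).le
        have h5 : (r S n : ℝ) ≤ R := by exact_mod_cast hSR n
        have h6 : (0:ℝ) ≤ r S n := Nat.cast_nonneg _
        apply max_le (by positivity)
        exact prod_bd h6 h5 hl hlu
      refine (sum_le_sum h4).trans ?_
      rw [← mul_sum]
      have h7 : (0:ℝ) ≤ (R + u) ^ 2 := by positivity
      nlinarith
  rw [← hF] at e2' ⊢
  obtain ⟨G, hG⟩ : ∃ G : ℝ, G = G0 S t := ⟨_, rfl⟩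
  rw [← hG] at e4 ⊢
  have e7 := alg7 (G := G) (μ := μ) hst hst2
  have e8 := alg8 (G := G) hst hs2p hst2 hφ
  have e9 : 8 / 315 * (Cl / (Real.sqrt K * t)) ≤ (η - δ) / 8 * t⁻¹ := by
    have h1 : 8 / 315 * (Cl / (Real.sqrt K * t)) = 8 / 315 * (Cl / Real.sqrt K) * t⁻¹ := by
      rw [← div_div]
      ring
    rw [h1]
    exact mul_le_mul_of_nonneg_right hK (inv_nonneg.mpr ht0.le)
  have e10 := alg10 (l := l) (u := u) (δ := δ) ht0 hc'
  have e11 := alg11 (t := t) (φ := φ) hs2p hs2 hμ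
  have e12 : μ ^ 2 = (37 / 8) ^ 2 * lam ^ 2 / 2 := by
    have h1 : (lam / Real.sqrt 2) ^ 2 = lam ^ 2 / 2 := by rw [div_pow, hs2]
    rw [hμ, mul_pow, h1]
    ring
  have hti : 0 < t⁻¹ := inv_pos.mpr ht0
  have e13 : J K S (fun _ _ _ _ => 1) t ≤
      ((l + u) * c - c ^ 2 - l * u + δ) / 2 * t⁻¹ + (C1 + (R + u) ^ 2 + Cq + Cu) +
        Cu * (1 / Real.sqrt t) := by
    linarith only [e1', e2', e3, e10]
  have e15 : (37 / 8) ^ 2 * (lam * φ) * t⁻¹ + 2 * (μ * ((G - 37 / 8 * F) / Real.sqrt t)) -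
      (37 / 8) ^ 2 * lam ^ 2 / 2 * t⁻¹ ≤ G ^ 2 := by
    have h1 : 2 * μ * (G / Real.sqrt t) = 2 * (μ * ((G - 37 / 8 * F) / Real.sqrt t)) +
        (37 / 8) ^ 2 * (lam * φ) * t⁻¹ := by
      rw [e8, mul_add, e11]
      ring
    rw [e12, h1] at e7
    linarith only [e7]
  have e16 : (((l + u) * c - c ^ 2 - l * u + δ) / 4 - 8 / 315 * ((37 / 8) ^ 2 * (lam * φ)) +
      8 / 315 * ((37 / 8) ^ 2 * lam ^ 2 / 2)) * t⁻¹ ≤ -((η - δ) / 4) * t⁻¹ := by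
    apply mul_le_mul_of_nonneg_right _ hti.le
    exact alg16 hb hc (e6 φ hφ0)
  have e17 := final_comb e13 e4 e15 e16 e9 e5
  linarith only [e17]

theorem main (hup : S_UP) (hid : S_ID) (hlow : S_LOW) (hodd : S_ODD) (hg : S_G) (hrs : S_RS)
    (hquad : S_QUAD) (hexc : S_EXC) (hgeo : S_GEO) (hf : S_F) (htr : S_TR) : S_MAIN := by
  intro A R l u δ hR hl hlu h3 hδ hη hev
  obtain ⟨b, hb⟩ : ∃ b : ℝ, b = 1369 / 1260 := ⟨_, rfl⟩
  have hfb := hf l u h3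
  rw [← hb] at h3 hη hfb
  obtain ⟨η, hηd⟩ : ∃ η : ℝ, η = l * u - (l + u - b) ^ 2 / 4 := ⟨_, rfl⟩
  rw [← hηd] at hη hfb
  obtain ⟨C1, hC1, hexc1⟩ := hexc (fun n => max 0 (((rep A n : ℝ) - l) * ((rep A n : ℝ) - u))) δ
    (fun n => le_max_left _ _) hδ hev
  obtain ⟨Cl, hCl, hlow1⟩ := hlow R
  obtain ⟨Cg, hCg, hg1⟩ := hg R
  obtain ⟨Cq, hCq, hquad1⟩ := hquad R l u hl hlu
  have hκ : 0 < η - δ := by linarith
  obtain ⟨K, hK1, hK⟩ := exists_K hCl hκ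
  obtain ⟨Cu, hCu, hup1⟩ := hup K R hK1
  obtain ⟨Ci, hCi, hid1⟩ := hid K R hK1
  obtain ⟨lam, hlam⟩ : ∃ lam : ℝ, lam = Real.sqrt ((l + u - b) / 2) := ⟨_, rfl⟩
  obtain ⟨μ, hμ⟩ : ∃ μ : ℝ, μ = 37 / 8 * (lam / Real.sqrt 2) := ⟨_, rfl⟩
  have hs2 : Real.sqrt 2 ^ 2 = 2 := Real.sq_sqrt (by norm_num)
  have hs2p : 0 < Real.sqrt 2 := Real.sqrt_pos.mpr (by norm_num)
  have hlam0 : 0 ≤ lam := by rw [hlam]; exact Real.sqrt_nonneg _
  have hb0 : (0:ℝ) < b := by rw [hb]; norm_num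
  have hlam2 : lam ^ 2 = (l + u - b) / 2 := by
    rw [hlam]
    apply Real.sq_sqrt
    linarith
  have hμ0 : 0 ≤ μ := by rw [hμ]; positivity
  have e6 : ∀ φ : ℝ, 0 ≤ φ → η ≤ φ ^ 4 - (l + u) * φ ^ 2 + l * u +
            b * (2 * lam * φ - lam ^ 2) := by
    intro φ hφ
    have := hfb φ hφ
    rw [hlam2, hlam]
    exact this
  have hu0 : 0 ≤ u := hl.trans hlu
  obtain ⟨T, hT⟩ : ∃ T : ℝ, T = Ci + (C1 + (R + u) ^ 2 + Cq + Cu) / 2 + Cu +
      16 * μ / 315 * Cg := ⟨_, rfl⟩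
  have key : ∀ ε : ℝ, 0 < ε → ε ≤ 1 → (η - δ) / 8 * Real.log (1 / ε) ≤ T := by
    intro ε hε hε1
    obtain ⟨N0, hN0⟩ : ∃ N0 : ℕ, 1 / ε ^ 2 ≤ (N0 : ℝ) := exists_nat_ge _
    obtain ⟨S, -, hS2, hS3, hS4⟩ := htr A N0
    have hSR : ∀ n, r S n ≤ R := fun n => (hS3 n).trans (hR n)
    have hM : 1 / ε ^ 2 ≤ ((2 * N0 : ℕ) : ℝ) := by
      refine hN0.trans ?_
      exact_mod_cast (by omega : N0 ≤ 2 * N0)
    rw [hT]
    refine integ (K := K) (S := S) (by positivity) hCu (by positivity) hε hε1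
      (hid1 S hSR ε hε hε1) (hg1 S hSR ε hε hε1) ?_
    intro t ht
    have ht0 : 0 < t := lt_of_lt_of_le hε ht.1
    have ht1 : t ≤ 1 := ht.2
    exact ptw hl hlu hb hs2 hs2p hμ hK hS2 hSR ht0 ht1
      (hrs R S (2 * t) hSR (by linarith))
      (fun c h0 h3 => hup1 (2 * N0) S hSR hS4 t c ht0 ht1 h0 h3)
      (fun c h0 h3 => hquad1 S (2 * N0) ε t c hSR hS4 hε ht.1 ht1 hM h0 h3)
      (hexc1 t (N0 + 1) ht0 ht1)
      ((hgeo ε t N0 hε ht.1 ht1 hN0).2 (2 * N0 + 1))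
      (hlow1 K hK1 S hSR t ht0 ht1) (hodd K S t hK1) e6
  have hκ8 : 0 < (η - δ) / 8 := by linarith
  obtain ⟨X, hX⟩ : ∃ X : ℝ, X = (|T| + 1) / ((η - δ) / 8) := ⟨_, rfl⟩
  have hX0 : 0 ≤ X := by rw [hX]; positivity
  have h1 := key (Real.exp (-X)) (Real.exp_pos _) (by rw [Real.exp_le_one_iff]; linarith)
  rw [one_div, Real.log_inv, Real.log_exp, neg_neg] at h1
  have h2 : (η - δ) / 8 * X = |T| + 1 := by
    rw [hX]
    field_simp
  rw [h2] at h1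
  have := le_abs_self T
  linarith

end Pool.Agent.W990.EB
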