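import Pool.Agent.W990.EB.Stm

set_option autoImplicit false
open Finset Filter MeasureTheory

namespace Pool.Agent.W990.EB

theorem cont_J (K : ℕ) (S : Finset ℕ) (P : ℝ → ℝ → ℝ → ℝ → ℝ)
    (hP : ∀ a b c d : ℝ, Continuous (fun t : ℝ => P (t * a) (t * b) (t * c) (t * d))) :
    Continuous (fun t : ℝ => J K S P t) := by
  unfold J
  refine continuous_finsetSum _ fun a _ => continuous_finsetSum _ fun b _ =>
    continuous_finsetSum _ fun c _ => continuous_finsetSum _ fun d _ => ?_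
  refine continuous_const.mul ((hP _ _ _ _).mul ?_)
  fun_prop

theorem cont_pe (K : ℕ) (S : Finset ℕ) : Continuous (fun t : ℝ => J K S pe t) := by
  refine cont_J K S pe fun a b c d => ?_
  unfold pe qe
  fun_prop

theorem cont_po (K : ℕ) (S : Finset ℕ) : Continuous (fun t : ℝ => J K S po t) := by
  refine cont_J K S po fun a b c d => ?_
  unfold po qo
  fun_prop

theorem cont_one (K : ℕ) (S : Finset ℕ) : Continuous (fun t : ℝ => J K S (fun _ _ _ _ => 1) t) :=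
  cont_J K S _ fun _ _ _ _ => continuous_const

theorem cont_f (S : Finset ℕ) : Continuous (fun t : ℝ => f S (2 * t)) := by
  unfold f
  fun_prop

theorem cont_G0 (S : Finset ℕ) : Continuous (fun t : ℝ => G0 S t) := by
  unfold G0 qe
  fun_prop

theorem f_nonneg (S : Finset ℕ) (s : ℝ) : 0 ≤ f S s :=
  sum_nonneg fun _ _ => (Real.exp_pos _).le

theorem int_inv_sqrt {ε : ℝ} (h : 0 < ε) (h1 : ε ≤ 1) : ∫ t in ε..1, 1 / Real.sqrt t ≤ 2 := by
  have hd : ∀ t ∈ Set.uIcc ε 1, HasDerivAt (fun t : ℝ => 2 * Real.sqrt t) (1 / Real.sqrt t) t := by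
    intro t ht
    rw [Set.uIcc_of_le h1] at ht
    have ht0 : 0 < t := lt_of_lt_of_le h ht.1
    have h2 := (Real.hasDerivAt_sqrt ht0.ne').const_mul 2
    refine h2.congr_deriv ?_
    have : 0 < Real.sqrt t := Real.sqrt_pos.mpr ht0
    field_simp
  have hc : IntervalIntegrable (fun t : ℝ => 1 / Real.sqrt t) volume ε 1 := by
    refine ContinuousOn.intervalIntegrable ?_
    rw [Set.uIcc_of_le h1]
    intro t ht
    have ht0 : 0 < t := lt_of_lt_of_le h ht.1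
    have : Real.sqrt t ≠ 0 := (Real.sqrt_pos.mpr ht0).ne'
    exact (ContinuousAt.div continuousAt_const Real.continuous_sqrt.continuousAt this).continuousWithinAt
  rw [intervalIntegral.integral_eq_sub_of_hasDerivAt hd hc]
  have := Real.sqrt_nonneg ε
  rw [Real.sqrt_one]
  linarith

theorem prod_bd {x R l u : ℝ} (h6 : 0 ≤ x) (h5 : x ≤ R) (hl : 0 ≤ l) (hlu : l ≤ u) :
    (x - l) * (x - u) ≤ (R + u) ^ 2 := by
  have h1 : |x - l| ≤ R + u := by rw [abs_le]; constructor <;> linarith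
  have h2 : |x - u| ≤ R + u := by rw [abs_le]; constructor <;> linarith
  calc (x - l) * (x - u) ≤ |(x - l) * (x - u)| := le_abs_self _
    _ = |x - l| * |x - u| := abs_mul _ _
    _ ≤ (R + u) * (R + u) := mul_le_mul h1 h2 (abs_nonneg _) (le_trans (abs_nonneg _) h1)
    _ = (R + u) ^ 2 := by ring

theorem final_comb {J1 Je Jo G2 a13 ti C2 Cu is Cl' x15 μg y15 η δ : ℝ}
    (e13 : J1 ≤ a13 / 2 * ti + C2 + Cu * is)
    (e14 : G2 - Cl' ≤ Je)
    (e15 : x15 * ti + 2 * μg - y15 * ti ≤ G2)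
    (e16 : (a13 / 4 - 8 / 315 * x15 + 8 / 315 * y15) * ti ≤ -((η - δ) / 4) * ti)
    (e9 : 8 / 315 * Cl' ≤ (η - δ) / 8 * ti) (e5 : 0 ≤ Jo) :
    1 / 2 * J1 - 8 / 315 * (Je + Jo) ≤
      -((η - δ) / 8) * ti + C2 / 2 + Cu / 2 * is - 16 / 315 * μg := by
  have h1 : 1 / 2 * J1 ≤ 1 / 2 * (a13 / 2 * ti + C2 + Cu * is) := by linarith
  have h2 : 8 / 315 * (G2 - Cl') ≤ 8 / 315 * Je := by linarith
  have h3 : 8 / 315 * (x15 * ti + 2 * μg - y15 * ti) ≤ 8 / 315 * G2 := by linarith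
  linear_combination h1 + h2 + h3 + e16 + e9 + 8 / 315 * e5

theorem alg7 {s t G μ : ℝ} (hs : 0 < s) (hst : s ^ 2 = t) :
    2 * μ * (G / s) - μ ^ 2 * t⁻¹ ≤ G ^ 2 := by
  subst hst
  have h1 : 0 ≤ (s * G - μ) ^ 2 * (s ^ 2)⁻¹ := by positivity
  have h2 : (s * G - μ) ^ 2 * (s ^ 2)⁻¹ = G ^ 2 - 2 * μ * (G / s) + μ ^ 2 * (s ^ 2)⁻¹ := by
    field_simp
    ring
  linarith

theorem alg8 {s s2 t G F φ : ℝ} (hs : 0 < s) (hs2 : 0 < s2) (hst : s ^ 2 = t)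
    (hφ : φ = s2 * s * F) :
    G / s = (G - 37 / 8 * F) / s + 37 / 8 * (φ / s2) * t⁻¹ := by
  subst hst hφ
  field_simp
  ring

theorem alg10 {t F c l u δ : ℝ} (ht : 0 < t) (hc : c = 2 * t * F ^ 2) :
    (l + u - 2 * c) * F ^ 2 + (c ^ 2 - l * u) / (2 * t) + δ / (2 * t) =
          ((l + u) * c - c ^ 2 - l * u + δ) / 2 * t⁻¹ := by
  subst hc
  field_simp
  ring

theorem alg11 {s2 t lam μ φ : ℝ} (hs2 : 0 < s2) (h2 : s2 ^ 2 = 2)
    (hμ : μ = 37 / 8 * (lam / s2)) :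
    2 * μ * (37 / 8 * (φ / s2) * t⁻¹) = (37 / 8) ^ 2 * (lam * φ) * t⁻¹ := by
  subst hμ
  have h3 : 2 * (37 / 8 * (lam / s2)) * (37 / 8 * (φ / s2) * t⁻¹) =
    (37 / 8) ^ 2 * (lam * φ) * t⁻¹ * (2 / s2 ^ 2) := by
    field_simp
  rw [h3, h2]
  ring

theorem alg16 {l u c φ δ η lam b : ℝ} (hb : b = 1369 / 1260) (hc : c = φ ^ 2)
    (h2 : η ≤ φ ^ 4 - (l + u) * φ ^ 2 + l * u + b * (2 * lam * φ - lam ^ 2)) :
    ((l + u) * c - c ^ 2 - l * u + δ) / 4 - 8 / 315 * ((37 / 8) ^ 2 * (lam * φ)) +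
          8 / 315 * ((37 / 8) ^ 2 * lam ^ 2 / 2) ≤ -((η - δ) / 4) := by
  subst hb hc
  linear_combination 1 / 4 * h2

theorem split_sum {N0 : ℕ} {g : ℕ → ℝ} {x y : ℝ} (h1 : ∑ n ∈ range (N0 + 1), g n ≤ x)
    (h2 : ∑ n ∈ Finset.Ico (N0 + 1) (2 * N0 + 1), g n ≤ y) :
    ∑ n ∈ range (2 * N0 + 1), g n ≤ x + y := by
  have hsplit : range (2 * N0 + 1) = range (N0 + 1) ∪ Finset.Ico (N0 + 1) (2 * N0 + 1) := by
    ext n
    simp only [mem_range, mem_union, mem_Ico]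
    omega
  have hdis : Disjoint (range (N0 + 1)) (Finset.Ico (N0 + 1) (2 * N0 + 1)) := by
    rw [disjoint_left]
    intro n h1 h2
    rw [mem_range] at h1
    rw [mem_Ico] at h2
    omega
  rw [hsplit, sum_union hdis]
  exact add_le_add h1 h2

theorem exists_K {Cl κ : ℝ} (hCl : 0 ≤ Cl) (hκ : 0 < κ) :
    ∃ K : ℕ, 1 ≤ K ∧ 8 / 315 * (Cl / Real.sqrt K) ≤ κ / 8 := by
  obtain ⟨K, hK⟩ := exists_nat_ge ((8 * Cl / κ) ^ 2 + 1)
  have hK1 : (1 : ℝ) ≤ K := by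
    have := sq_nonneg (8 * Cl / κ)
    linarith
  refine ⟨K, by exact_mod_cast hK1, ?_⟩
  have h1 : 8 * Cl / κ ≤ Real.sqrt K := by
    apply Real.le_sqrt_of_sq_le
    linarith
  have h2 : 0 < Real.sqrt K := Real.sqrt_pos.mpr (by linarith)
  rw [div_le_iff₀ hκ] at h1
  have h4 : Cl / Real.sqrt K ≤ κ / 8 := by
    rw [div_le_iff₀ h2]
    linarith
  have h5 : 0 ≤ Cl / Real.sqrt K := by positivity
  linarith

end Pool.Agent.W990.EB
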