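import Pool.Agent.W990.EB.Defs

/-!
# Project EB: statements of the parts

In all parts `S` is a finite set of natural numbers with `r S n ≤ R` for all `n`, where
`r S n` is the number of ordered pairs with sum `n`.
-/

set_option autoImplicit false
open Finset

namespace Pool.Agent.W990.EB

/-- Stieltjes form of the quadratic form (in particular it is nonnegative). -/
def S_V0 : Prop := ∀ (ι : Type) (K : ℕ) (I : Finset ι) (m : ι → ℤ) (U : ι → ℝ), 1 ≤ K →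
  W K I m U = 1 / (2 * (K : ℝ) ^ 2) * ∑ i ∈ range K, ∑ j ∈ range K,
    ∑' x : ℤ, (fib I m U (x + i) - fib I m U (x + j)) ^ 2

def S_V1 : Prop := ∀ (ι : Type) (K : ℕ) (I : Finset ι) (m : ι → ℤ) (U : ι → ℝ), 1 ≤ K →
  0 ≤ W K I m U

def S_V2 : Prop := ∀ (ι : Type) (K : ℕ) (I : Finset ι) (m : ι → ℤ) (U : ι → ℝ), 1 ≤ K →
  W K I m U ≤ En I m U

def S_V3 : Prop := ∀ (ι : Type) (K : ℕ) (I : Finset ι) (m : ι → ℤ) (U : ι → ℝ), 1 ≤ K →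
  (fib I m U 0) ^ 2 - 4 / Real.sqrt K * En I m U ≤ W K I m U

/-- Cauchy-Schwarz for the form -/
def S_VC : Prop := ∀ (ι : Type) (K : ℕ) (I : Finset ι) (m : ι → ℤ) (U V : ι → ℝ) (c : ℝ), 1 ≤ K →
  W K I m (fun i => U i + c * V i) ≤ W K I m U + 2 * |c| * Real.sqrt (W K I m U) *
    Real.sqrt (W K I m V) + c ^ 2 * W K I m V

/-- the form is small on slowly decreasing sequences -/
def S_VE : Prop := ∀ (K M : ℕ) (t : ℝ), 1 ≤ K → 0 < t → t ≤ 1 →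
  W K (range (M + 1)) (fun n : ℕ => (n : ℤ)) (fun n : ℕ => Real.exp (-(t * n))) ≤ 20 * (K : ℝ) ^ 2

/-- the sum over quadruples is a quadratic form, sum version -/
def S_JS : Prop := ∀ (K M : ℕ) (S : Finset ℕ) (t : ℝ), (∀ n, M < n → r S n = 0) →
  J K S (fun _ _ _ _ => 1) t =
    W K (range (M + 1)) (fun n : ℕ => (n : ℤ)) (fun n : ℕ => (r S n : ℝ) * Real.exp (-(t * n)))

/-- the sum over quadruples is a quadratic form, difference version -/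
def S_JD : Prop := ∀ (K : ℕ) (S : Finset ℕ) (t : ℝ) (q : ℝ → ℝ → ℝ),
  J K S (fun a b c d => q (a - b) (a + b) * q (c - d) (c + d)) t =
    W K (S ×ˢ S) (fun x : ℕ × ℕ => (x.1 : ℤ) - (x.2 : ℤ))
      (fun x : ℕ × ℕ => q (t * x.1 - t * x.2) (t * x.1 + t * x.2) *
        Real.exp (-(t * (x.1 + x.2))))

/-- upper bound for the sum version -/
def S_UP : Prop := ∀ K R : ℕ, 1 ≤ K → ∃ C : ℝ, 0 ≤ C ∧ ∀ (M : ℕ) (S : Finset ℕ), (∀ n, r S n ≤ R) →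
  (∀ n, M < n → r S n = 0) → ∀ t c : ℝ, 0 < t → t ≤ 1 → 0 ≤ c → c ≤ 3 * R →
    J K S (fun _ _ _ _ => 1) t ≤
      ∑ n ∈ range (M + 1), ((r S n : ℝ) - c) ^ 2 * Real.exp (-(2 * t * n)) +
        C * (1 + 1 / Real.sqrt t)

/-- number of pairs with weight -/
def S_RS : Prop := ∀ (R : ℕ) (S : Finset ℕ) (s : ℝ), (∀ n, r S n ≤ R) → 0 < s →
  (f S s) ^ 2 ≤ R * (1 / s + 1)

/-- number of quadruples with weight -/
def S_Q4 : Prop := ∀ (K R : ℕ) (S : Finset ℕ) (t : ℝ), (∀ n, r S n ≤ R) → 0 < t → t ≤ 1 →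
  ∑ a ∈ S, ∑ b ∈ S, ∑ c ∈ S, ∑ d ∈ S,
    (if |(a : ℤ) + d - b - c| ≤ K then Real.exp (-(t * (a + b + c + d) / 2)) else 0) ≤
      (R : ℝ) ^ 2 * (2 * K + 1) * (3 / t)

def S_BD : Prop := ∀ P : ℝ → ℝ → ℝ → ℝ → ℝ, PG P → ∀ K R : ℕ, 1 ≤ K → ∃ C : ℝ, 0 ≤ C ∧
  ∀ S : Finset ℕ, (∀ n, r S n ≤ R) → ∀ t : ℝ, 0 < t → t ≤ 1 →
    |J K S P t| ≤ C / t ∧ |J K S (fun a b c d => (a + d - b - c) * P a b c d) t| ≤ C

def S_PG : Prop := PG al ∧ PG be ∧ PG pe ∧ PG po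

def S_SWAP : Prop := ∀ (K : ℕ) (S : Finset ℕ) (P : ℝ → ℝ → ℝ → ℝ → ℝ) (t : ℝ),
  J K S (sym P) t = J K S P t

/-- the identity, integrated -/
def S_ID : Prop := ∀ K R : ℕ, 1 ≤ K → ∃ C : ℝ, 0 ≤ C ∧ ∀ S : Finset ℕ, (∀ n, r S n ≤ R) →
  ∀ ε : ℝ, 0 < ε → ε ≤ 1 →
    |∫ t in ε..1, (1 / 2 * J K S (fun _ _ _ _ => 1) t -
      8 / 315 * (J K S pe t + J K S po t))| ≤ C

/-- lower bound for the even difference form -/
def S_LOW : Prop := ∀ R : ℕ, ∃ C : ℝ, 0 ≤ C ∧ ∀ K : ℕ, 1 ≤ K → ∀ S : Finset ℕ,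
  (∀ n, r S n ≤ R) → ∀ t : ℝ, 0 < t → t ≤ 1 →
    (G0 S t) ^ 2 - C / (Real.sqrt K * t) ≤ J K S pe t

/-- the odd difference form is nonnegative -/
def S_ODD : Prop := ∀ (K : ℕ) (S : Finset ℕ) (t : ℝ), 1 ≤ K → 0 ≤ J K S po t

/-- the integral of `G0` -/
def S_G : Prop := ∀ R : ℕ, ∃ C : ℝ, 0 ≤ C ∧ ∀ S : Finset ℕ, (∀ n, r S n ≤ R) →
  ∀ ε : ℝ, 0 < ε → ε ≤ 1 →
    |∫ t in ε..1, (G0 S t - 37 / 8 * f S (2 * t)) / Real.sqrt t| ≤ C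

/-- the geometric sum -/
def S_GEO : Prop := ∀ (ε t : ℝ) (M : ℕ), 0 < ε → ε ≤ t → t ≤ 1 → 1 / ε ^ 2 ≤ M →
  |∑ n ∈ range (M + 1), Real.exp (-(2 * t * n)) - 1 / (2 * t)| ≤ 2 ∧
  ∀ L : ℕ, ∑ n ∈ Finset.Ico (M + 1) L, Real.exp (-(2 * t * n)) ≤ 1

/-- the pointwise quadratic bound for the sum version -/
def S_QUAD : Prop := ∀ (R : ℕ) (l u : ℝ), 0 ≤ l → l ≤ u → ∃ C : ℝ, 0 ≤ C ∧
  ∀ (S : Finset ℕ) (M : ℕ) (ε t c : ℝ), (∀ n, r S n ≤ R) → (∀ n, M < n → r S n = 0) →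
    0 < ε → ε ≤ t → t ≤ 1 → 1 / ε ^ 2 ≤ M → 0 ≤ c → c ≤ 3 * R →
    ∑ n ∈ range (M + 1), ((r S n : ℝ) - c) ^ 2 * Real.exp (-(2 * t * n)) ≤
      (l + u - 2 * c) * (f S (2 * t)) ^ 2 + (c ^ 2 - l * u) / (2 * t) +
        ∑ n ∈ range (M + 1), max 0 (((r S n : ℝ) - l) * ((r S n : ℝ) - u)) *
          Real.exp (-(2 * t * n)) + C

/-- exponential means of a sequence with small upper mean -/
def S_EXC : Prop := ∀ (e : ℕ → ℝ) (δ : ℝ), (∀ n, 0 ≤ e n) → 0 ≤ δ →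
  (∀ᶠ N : ℕ in Filter.atTop, ∑ n ∈ range N, e n ≤ δ * N) → ∃ C : ℝ, 0 ≤ C ∧
    ∀ (t : ℝ) (M : ℕ), 0 < t → t ≤ 1 →
      ∑ n ∈ range M, e n * Real.exp (-(2 * t * n)) ≤ δ / (2 * t) + C

/-- the final quartic inequality (`φ²` is the local mean) -/
def S_F : Prop := ∀ l u : ℝ, 3 * (1369 / 1260) ≤ l + u → ∀ φ : ℝ, 0 ≤ φ →
  l * u - (l + u - 1369 / 1260) ^ 2 / 4 ≤ φ ^ 4 - (l + u) * φ ^ 2 + l * u +
    1369 / 1260 * (2 * Real.sqrt ((l + u - 1369 / 1260) / 2) * φ - (l + u - 1369 / 1260) / 2)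

/-- ordered representations in a set of natural numbers -/
noncomputable def rep (A : Set ℕ) (n : ℕ) : ℕ :=
  {x : ℕ × ℕ | x.1 ∈ A ∧ x.2 ∈ A ∧ x.1 + x.2 = n}.ncard

/-- truncation: representations of a set and of its finite parts -/
def S_TR : Prop := ∀ (A : Set ℕ) (N : ℕ), ∃ S : Finset ℕ, (∀ a, a ∈ S ↔ a ∈ A ∧ a ≤ N) ∧
  (∀ n, n ≤ N → r S n = rep A n) ∧ (∀ n, r S n ≤ rep A n) ∧ (∀ n, 2 * N < n → r S n = 0)

/-- MAIN: the mean variance inequality -/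
def S_MAIN : Prop := ∀ (A : Set ℕ) (R : ℕ) (l u δ : ℝ), (∀ n, rep A n ≤ R) → 0 ≤ l → l ≤ u →
  3 * (1369 / 1260) ≤ l + u → 0 ≤ δ → δ < l * u - (l + u - 1369 / 1260) ^ 2 / 4 →
  ¬ (∀ᶠ N : ℕ in Filter.atTop,
    ∑ n ∈ range N, max 0 (((rep A n : ℝ) - l) * ((rep A n : ℝ) - u)) ≤ δ * N)

/-- few `n` have an odd number of representations if `rep` is bounded -/
def S_ODDREP : Prop := ∀ (A : Set ℕ) (R : ℕ), (∀ n, rep A n ≤ R) → ∀ δ : ℝ, 0 < δ →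
  ∀ᶠ N : ℕ in Filter.atTop, (((range N).filter (fun n => ¬ Even (rep A n))).card : ℝ) ≤ δ * N

end Pool.Agent.W990.EB
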